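import Pool.Agent.Helper65.CS.Defs
import Pool.Agent.Helper78.DT.Goals3

/-!
# Search for accepting coins of randomized machines in stages without memory
-/

namespace Pool.Agent.Helper65.CS

open Pool.Agent.Helper81.CC Pool.Agent.Helper78.DT Pool.Agent.Helper51.ZP
open scoped Classical

/-- Search for accepting coins: for every randomized machine `A` in stages without memory
(`Pool.Agent.Helper78.DT.Machine`), for inputs of any type `α`, and every size function `s` which is
computable in polynomial time, there is a deterministic polynomial-time function `f` such that for
all inputs `x` which `A` accepts with probability at least `1 / (log₂ (s x) + 2) ^ c`, `f x` is (the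
list of the bits of) a coin string with which `A` accepts `x`. -/
def FindsCoins (c : ℕ) : Prop :=
  ∀ (α : Type) [ToData α] (A : Machine α) (s : α → ℕ), PolyTimeComputable (encOf α) (encOf ℕ) s →
    ∃ f : α → List Bool, PolyTimeComputable (encOf α) (encOf (List Bool)) f ∧ ∀ x,
      2 ^ A.m x ≤ (Nat.log 2 (s x) + 2) ^ c * A.acc x →
      ∃ r : Fin (A.m x) → Bool, A.Accepts x r ∧ f x = List.ofFn r

section
variable {α : Type} [ToData α] (A : Machine α) (x : α)

/-- One step in the enumeration of the histories of the stage `i`. -/
def hst (i : ℕ) (H : List (List Bool)) : List (List Bool) :=
  H.flatMap fun a => if 3 ≤ A.act (x, i, a) then [a ++ [false], a ++ [true]] else [a]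

/-- The leaves of the decision tree of the stage `i`. -/
def lvs (i : ℕ) : List (List Bool) := (hst A x i)^[A.w x] [[]]

/-- The term of a leaf. -/
def trm (i : ℕ) (a : List Bool) : List (ℕ × Bool) :=
  (List.range a.length).map fun k => (A.act (x, i, a.take k) - 3, a.getD k false)

/-- The runs of the machine as a decision list. -/
def mdl : DList :=
  (List.range (A.T x)).flatMap fun i =>
    ((lvs A x i).filter fun a => decide (A.act (x, i, a) ≠ 0)).map fun a =>
      (trm A x i a, decide (A.act (x, i, a) = 2))

end

/-- **MLV.** The decision list of a machine. (May assume `Pool.Agent.Helper78.DT.HisStmt`,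
`Pool.Agent.Helper78.DT.ResStmt`.)

Proof. Fix `x`, `r`, and let `b = cf r`, so `b j = A.coin r j`. For each stage `i` and each `k` the
list `(hst A x i)^[k] [[]]` consists of histories (lists `a` with `3 ≤ A.act (x, i, a.take j)` for
`j < a.length`), each of length `k`, or shorter and with action `< 3`; and it contains the `k`th
iterate of `stp A x i b` at `[]`. By HIS all histories have length `< A.w x`, so all elements of
`lvs A x i` are histories with action `< 3`, and `hist A x i b` is one of them. For such a leaf `a`
the term `trm A x i a` is satisfied by `r` (all bits `a[k]` are the coins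
`A.act (x, i, a.take k) - 3`, with value `false` if there is no such coin) iff `a = hist A x i b`
(HIS), that is, iff `A.Ends x r i a (A.act (x, i, a))`. So, going through the stages, the value of
`mdl A x` is `true` iff at the first stage `i < A.T x` whose history has an action `≠ 0`, this
action is `2`: this is `A.Accepts x r` (compare the proof of RES; or use RES with the parameters
`W = A.w x`, `K = 0`). -/
def MlvStmt : Prop := ∀ (α : Type) [ToData α] (A : Machine α) (x : α) (r : Fin (A.m x) → Bool),
  DList.val r (mdl A x) = true ↔ A.Accepts x r

/-- **MLP.** The decision list is computed in polynomial time. (May assume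
`Pool.Agent.Helper78.DT.HisStmt`.)

Proof. `A.act`, `A.T`, `A.w` are in `PolyTime` (`Pool.Agent.Helper78.LM.PT_of_comp`).
`PolyTime.iterate_bd` for `lvs`: the elements of the `k`th iterate are pairwise different histories
(induction: the extensions of different lists are different; a list of length `k` and a shorter leaf
are different), so there are at most `A.w x` of them (`A.tree`), each of length `≤ A.w x`
(`sz_bools`, `sz_list_le` in `Pool.Agent.Helper51.ZP.Alg`). The rest is in the calculus. -/
def MlpStmt : Prop := ∀ (α : Type) [ToData α] (A : Machine α), PolyTime fun x => mdl A x

/-- **MLF.** Search for coins. (May assume `MlvStmt`, `MlpStmt`.)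

Proof. Let `F x = mdl A x ++ List.replicate (s x) ([], false)`. The added entries do not change the
value (`DList.val r ([], false) :: ... = false`, as is the value of the empty list). The number of
the entries of `F x` is at least `s x`, so `s x ≤ dsize (A.m x, F x)`. With the function `g` of
`FindsLists c` let `f x = g (A.m x, F x)`. `A.acc x` is the number of the `r` with
`A.Accepts x r`. -/
def MlfStmt : Prop := (∀ c, FindsLists c) → ∀ c, FindsCoins c

end Pool.Agent.Helper65.CS
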