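import Pool.Agent.Helper65.CS.Goals
import Pool.Agent.Helper3.CS.OVX
import Pool.Agent.Helper27.CS.CHS
import Pool.Agent.Helper33.CS.PSL

/-! Packet CS-ASG: the chosen values are almost independent. -/

namespace Pool.Agent.Helper65.CS

open Pool.Agent.Helper78.DT Pool.Agent.Helper51.ZP
open scoped Classical

theorem pk_inj {al : List ℕ} (hnd : al.Nodup) {b : ℕ} {ρ : ℕ → Bool} {j j' : ℕ}
    (hj : j < al.length / 2 ^ b) (hj' : j' < al.length / 2 ^ b)
    (h : al.getD (pk b ρ j) 0 = al.getD (pk b ρ j') 0) : j = j' := by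
  have hl := Pool.Agent.Helper27.CS.pk_lt b ρ j al.length hj
  have hl' := Pool.Agent.Helper27.CS.pk_lt b ρ j' al.length hj'
  rw [List.getD_eq_getElem _ _ hl, List.getD_eq_getElem _ _ hl'] at h
  have h1 : pk b ρ j = pk b ρ j' := (List.Nodup.getElem_inj_iff hnd).1 h
  rw [← Pool.Agent.Helper33.CS.pk_div b ρ j, h1, Pool.Agent.Helper33.CS.pk_div]

theorem ovr_val {n b : ℕ} {al : List ℕ} (hnd : al.Nodup) {r y : List Bool} {x : Fin n → Bool}
    {v : Fin n} {j : ℕ} (hj : j < al.length / 2 ^ b)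
    (hv : al.getD (pk b (fun i => r.getD i false) j) 0 = (v : ℕ)) :
    ovr (ex al b r y) x v = y.getD j false := by
  have hmem : ∀ c : Bool, ((v : ℕ), c) ∈ ex al b r y ↔ y.getD j false = c := by
    intro c
    rw [Pool.Agent.Helper3.CS.mem_ex]
    constructor
    · rintro ⟨j', hj', h1, h2⟩
      rw [← hv] at h1
      rw [pk_inj hnd hj hj' h1.symm, h2]
    · intro h
      exact ⟨j, hj, hv, h⟩
  unfold ovr
  cases hy : y.getD j false with
  | true => rw [if_pos ((hmem true).2 hy)]
  | false =>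
    rw [if_neg (fun h => by rw [(hmem true).1 h] at hy; exact Bool.noConfusion hy),
      if_pos ((hmem false).2 hy)]

theorem asgS (hC : CylStmt) : AsgStmt := by
  intro n b al r Ω _ _ ε Z hε hB hnd hlt T hT hTS
  have hch : ∀ p : {p // p ∈ T}, ∃ j : Fin (al.length / 2 ^ b),
      al.getD (pk b (fun i => r.getD i false) j) 0 = (p.1.1 : ℕ) := by
    intro p
    obtain ⟨j, hj, h⟩ := (Pool.Agent.Helper3.CS.mem_chs _ _ _ _ _).1 (hTS p.1 p.2)
    exact ⟨⟨j, hj⟩, h⟩
  choose J hJ using hch
  have hJinj : Function.Injective J := by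
    intro p p' h
    have h1 : (p.1.1 : ℕ) = (p'.1.1 : ℕ) := by rw [← hJ p, ← hJ p', h]
    have h2 : p.1.1 = p'.1.1 := Fin.ext h1
    have h3 : p.1.2 = p'.1.2 := by
      by_contra hne
      apply hT p.1.1
      have hp := p.2
      have hp' := p'.2
      rw [show p.1 = (p.1.1, p.1.2) from rfl] at hp
      rw [show p'.1 = (p'.1.1, p'.1.2) from rfl, ← h2] at hp'
      cases hb : p.1.2 <;> cases hb' : p'.1.2
      · exact absurd (hb.trans hb'.symm) hne
      · rw [hb] at hp
        rw [hb'] at hp'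
        exact ⟨hp', hp⟩
      · rw [hb] at hp
        rw [hb'] at hp'
        exact ⟨hp, hp'⟩
      · exact absurd (hb.trans hb'.symm) hne
    exact Subtype.ext (Prod.ext h2 h3)
  set I : Finset (Fin (al.length / 2 ^ b)) := Finset.univ.image J with hI
  have hIc : I.card = T.card := by
    rw [hI, Finset.card_image_of_injective _ hJinj, Finset.card_univ, Fintype.card_coe]
  set c : Fin (al.length / 2 ^ b) → Bool := fun i => decide (∃ p : {p // p ∈ T}, J p = i ∧
    p.1.2 = true) with hc
  have hcJ : ∀ p, c (J p) = p.1.2 := by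
    intro p
    rw [hc]
    cases hb : p.1.2 with
    | true => exact decide_eq_true ⟨p, rfl, hb⟩
    | false =>
      apply decide_eq_false
      rintro ⟨p', h1, h2⟩
      rw [hJinj h1, hb] at h2
      exact Bool.noConfusion h2
  have hval : ∀ ω (p : {p // p ∈ T}),
      (ovr (ex al b r (List.ofFn fun i => z2b (Z ω i))) fun _ => false : Fin n → Bool) p.1.1 =
        z2b (Z ω (J p)) := by
    intro ω p
    rw [ovr_val hnd (J p).2 (hJ p), List.getD_eq_getElem _ _ (by simp)]
    simp
  have hev : ∀ ω, Sat T (ovr (ex al b r (List.ofFn fun i => z2b (Z ω i))) fun _ => false) ↔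
      ∀ i ∈ I, z2b (Z ω i) = c i := by
    intro ω
    constructor
    · intro h i hi
      rw [hI, Finset.mem_image] at hi
      obtain ⟨p, _, rfl⟩ := hi
      rw [hcJ, ← hval ω p]
      exact h p.1 p.2
    · intro h p hp
      have := h (J ⟨p, hp⟩) (by rw [hI]; exact Finset.mem_image_of_mem _ (Finset.mem_univ _))
      rw [hcJ, ← hval ω ⟨p, hp⟩] at this
      exact this
  rw [pr_congr hev, ← hIc]
  exact hC _ Ω ε Z hε hB I c

end Pool.Agent.Helper65.CS
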