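import Pool.Agent.Helper78.DT.Defs

/-!
# Satisfying assignments of formulas of depth two with many satisfying assignments

Turing machines are Mathlib's multi-stack machines; `PolyTimeComputable` is in
`Pool.Agent.Helper81.CxDefs`, the coding `encOf` of structured data (with numbers in unary) is in
`Pool.Agent.Helper81.CxData`. Decision lists as data (`DList`, `DList.val`, `dsize`) are in
`Pool.Agent.Helper78.DT.Defs`.
-/

namespace Pool.Agent.Helper65.CS

open Pool.Agent.Helper81.CC Pool.Agent.Helper78.DT

/-- A CNF formula, as data: a list of clauses; a clause is a list of literals `(v, b)`, each of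
which stands for the condition that the variable `v` has the value `b`. -/
abbrev CNF := List (List (ℕ × Bool))

/-- The assignment `r` of the `n` variables satisfies the formula: each clause contains a literal
which is true (the variables `v ≥ n` have the value `false`). -/
def Satisfies {n : ℕ} (r : Fin n → Bool) (F : CNF) : Prop :=
  ∀ C ∈ F, ∃ p ∈ C, (if h : p.1 < n then r ⟨p.1, h⟩ else false) = p.2

/-- The size of a CNF formula in `n` variables: `n`, plus the number of the clauses, plus the number
of the literals. -/
def csize (z : ℕ × CNF) : ℕ := z.1 + (z.2.map fun C => C.length + 1).sum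

/-- Search for satisfying assignments: there is a deterministic polynomial-time function `f` which,
for each CNF formula `F` in `n` variables that has at least `2 ^ n / (log₂ N + 2) ^ c` satisfying
assignments, where `N` is the size of `(n, F)`, gives one of them (as the list of its `n` bits). -/
def FindsCNF (c : ℕ) : Prop :=
  ∃ f : ℕ × CNF → List Bool,
    PolyTimeComputable (encOf (ℕ × CNF)) (encOf (List Bool)) f ∧ ∀ n F,
      2 ^ n ≤ (Nat.log 2 (csize (n, F)) + 2) ^ c *
        Nat.card {r : Fin n → Bool // Satisfies r F} →
      ∃ r : Fin n → Bool, Satisfies r F ∧ f (n, F) = List.ofFn r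

/-- The same for decision lists, that is, for assignments for which the value is `true`. -/
def FindsLists (c : ℕ) : Prop :=
  ∃ f : ℕ × DList → List Bool,
    PolyTimeComputable (encOf (ℕ × DList)) (encOf (List Bool)) f ∧ ∀ n F,
      2 ^ n ≤ (Nat.log 2 (dsize (n, F)) + 2) ^ c *
        Nat.card {r : Fin n → Bool // DList.val r F = true} →
      ∃ r : Fin n → Bool, DList.val r F = true ∧ f (n, F) = List.ofFn r

end Pool.Agent.Helper65.CS
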