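import Pool.Agent.Helper65.CS.Core
import Pool.Agent.Helper65.CS.Defs
import Pool.Agent.Helper78.DT.Num

/-!
# Search for satisfying assignments: the algorithm
-/

namespace Pool.Agent.Helper65.CS

open Pool.Agent.Helper81.CC Pool.Agent.Helper78.DT Pool.Agent.Helper51.ZP

/-- The literals of a term, without repetitions and without the literals `(v, false)`, `v ≥ n`. -/
def cln (n : ℕ) (T : List (ℕ × Bool)) : List (ℕ × Bool) :=
  (T.filter fun p => decide (p.1 < n) || p.2).dedup

/-- Normalization: the terms which cannot be satisfied are removed, the terms with label `false`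
are cut to `W` literals, the terms with label `true` and more than `W` literals are removed. -/
def nrm (n W : ℕ) (F : DList) : DList :=
  F.filterMap fun e =>
    if (cln n e.1).all (fun p => decide (p.1 < n) && !(cln n e.1).contains (p.1, !p.2)) then
      (if (cln n e.1).length ≤ W then some (cln n e.1, e.2)
        else if e.2 then none else some ((cln n e.1).take W, false))
    else none

/-- A normalized decision list. -/
def NF (n W : ℕ) (F : DList) : Prop :=
  ∀ e ∈ F, e.1.Nodup ∧ e.1.length ≤ W ∧ ∀ p ∈ e.1, p.1 < n ∧ (p.1, !p.2) ∉ e.1

/-- The restriction of a decision list by a list of literals: the falsified terms and the satisfied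
literals are removed. -/
def rst (s : List (ℕ × Bool)) (F : DList) : DList :=
  (F.filter fun e => e.1.all fun p => !s.contains (p.1, !p.2)).map fun e =>
    (e.1.filter fun p => !s.contains p, e.2)

/-- The names of the variables without a value. -/
def al (n : ℕ) (s : List (ℕ × Bool)) : List ℕ :=
  (List.range n).filter fun v => !s.contains (v, true) && !s.contains (v, false)

/-- The candidates for the next step. -/
def cands (b M n : ℕ) (s : List (ℕ × Bool)) : List (List (ℕ × Bool)) :=
  if 2 ^ b ≤ (al n s).length then
    (gens M (b * ((al n s).length / 2 ^ b))).flatMap fun r =>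
      (gens M ((al n s).length / 2 ^ b)).map fun y => ex (al n s) b r y
  else ((al n s).take 1).flatMap fun v => [[(v, false)], [(v, true)]]

/-- One step: the first candidate for which the approximate number of solutions does not drop by
more than three units. `g (n, G, N)` approximates the fraction of the assignments with value `true`,
in units of `1 / (lg N) ^ k`. -/
def step (g : ℕ × DList × ℕ → ℕ) (b M n N : ℕ) (t : List (ℕ × Bool) × DList) :
    List (ℕ × Bool) × DList :=
  match (cands b M n t.1).find? fun e => decide (g (n, t.2, N) ≤ g (n, rst e t.2, N) + 3) with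
  | some e => (e ++ t.1, rst e t.2)
  | none => t

/-- The bits of the assignment which is given by a list of literals. -/
def asg (n : ℕ) (s : List (ℕ × Bool)) : List Bool := (List.range n).map fun v => s.contains (v, true)

/-- The value of a decision list at the assignment given by a list of bits. -/
def vl (r : List Bool) (F : DList) : Bool :=
  match F.find? fun e => e.1.all fun p => decide (r.getD p.1 false = p.2) with
  | some e => e.2
  | none => false

/-- The exponent `b` of the block length: `2 ^ b` is between `L ^ 2` and `4 L ^ 2`. -/
def bb (L : ℕ) : ℕ := 2 * (Nat.log 2 L + 1)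

/-- The bound for the size of the generators. -/
def MM (N : ℕ) : ℕ := (4 * N + 4) ^ 19

/-- The number of the steps. -/
def TT (L : ℕ) : ℕ := 2 * 2 ^ bb L * L

/-- The bound for the width. -/
def Ww (c L : ℕ) : ℕ := (c + 3) * L

/-- The state after `k` steps. -/
def st (g : ℕ × DList × ℕ → ℕ) (c n : ℕ) (F : DList) (N k : ℕ) : List (ℕ × Bool) × DList :=
  (step g (bb (lg N)) (MM N) n N)^[k] ([], nrm n (Ww c (lg N)) F)

/-- The result of the search. -/
def srch (g : ℕ × DList × ℕ → ℕ) (c : ℕ) (z : ℕ × DList) : List Bool :=
  asg z.1 (st g c z.1 z.2 (dsize z) (TT (lg (dsize z)))).1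

/-- The fraction of the assignments for which the value is `true`. -/
noncomputable def frac (n : ℕ) (F : DList) : ℝ :=
  (Nat.card {r : Fin n → Bool // DList.val r F = true} : ℝ) / 2 ^ n

/-- `g` approximates the fractions for normalized decision lists. -/
def Cnt (k : ℕ) (g : ℕ × DList × ℕ → ℕ) : Prop :=
  ∀ (n W : ℕ) (F : DList) (N : ℕ), NF n W F →
    |(g (n, F, N) : ℝ) / (lg N : ℝ) ^ k - frac n F| ≤ 1 / (lg N : ℝ) ^ k

/-- A decision list as a list of sets of literals. -/
def tdl (n : ℕ) (F : DList) : DL (Fin n) :=
  F.map fun e => (Finset.univ.filter fun p : Fin n × Bool => ((p.1 : ℕ), p.2) ∈ e.1, e.2)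

/-- The state `(s, G)` is legal, for the original decision list `F`: the literals in `s` have
different variables `< n`, `G` is normalized, and the value of `G` at `x` is the value of `F` at the
assignment `x` overwritten by `s`. -/
def Inv (n W : ℕ) (F : DList) (t : List (ℕ × Bool) × DList) : Prop :=
  (t.1.map Prod.fst).Nodup ∧ (∀ p ∈ t.1, p.1 < n) ∧ NF n W t.2 ∧
    ∀ x : Fin n → Bool, DList.val x t.2 = DList.val (ovr t.1 x) F

end Pool.Agent.Helper65.CS
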