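import Pool.Agent.Helper78.DT.Av
import Pool.Agent.Helper51.ZP.Lfsr

/-!
# Search for satisfying assignments: the definitions of the analysis

Restrictions, the canonical decision tree of a decision list, the sum over the codes.
The paper proof: `CS/paper.md`.
-/

namespace Pool.Agent.Helper65.CS

open Pool.Agent.Helper78.DT Pool.Agent.Helper51.ZP
open scoped Classical

variable {V : Type} [DecidableEq V]

/-- The term `T` contains no variable with two different values. -/
def Con (T : Tm V) : Prop := ∀ v : V, ¬ ((v, true) ∈ T ∧ (v, false) ∈ T)

/-- All terms of the list are consistent. -/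
def CL (f : DL V) : Prop := ∀ e ∈ f, Con e.1

/-- The variables of a set of literals. -/
def vr (T : Tm V) : Finset V := T.image Prod.fst

/-- The restriction with the values of `z` outside `S`; the variables in `S` are free. -/
def rs (S : Finset V) (z : V → Bool) : V → Option Bool := fun v => if v ∈ S then none else some (z v)

/-- The assignment `ρ`, completed by `y`. -/
def mx (ρ : V → Option Bool) (y : V → Bool) : V → Bool := fun v => (ρ v).getD (y v)

/-- The term `T` is falsified by the restriction `ρ`. -/
def Fls (ρ : V → Option Bool) (T : Tm V) : Prop := ∃ p ∈ T, ρ p.1 = some (!p.2)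

/-- The literals of `T` whose variable is free. -/
def fr (ρ : V → Option Bool) (T : Tm V) : Tm V := T.filter fun p => ρ p.1 = none

/-- The restriction `ρ`, with the values of `x` on the variables of `U`. -/
def fx (ρ : V → Option Bool) (U : Tm V) (x : V → Bool) : V → Option Bool :=
  fun v => if v ∈ vr U then some (x v) else ρ v

/-- The assignment `z`, changed on the variables of `D`. -/
def flp (D : Tm V) (z : V → Bool) : V → Bool := fun v => if v ∈ vr D then !z v else z v

/-- The depth of the canonical decision tree of the decision list `f` under the restriction `ρ`: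
the first term which is not falsified by `ρ` is taken, all its free variables are queried, and if it
is not satisfied then the tree goes on with the rest of the list. -/
noncomputable def dep [Fintype V] : DL V → (V → Option Bool) → ℕ
  | [], _ => 0
  | e :: f, ρ => if Fls ρ e.1 then dep f ρ else
      (fr ρ e.1).card + Finset.univ.sup fun x : V → Bool =>
        if Sat (fr ρ e.1) x then 0 else dep f (fx ρ (fr ρ e.1) x)

/-- The sum of `G` over all codes of length `u`, for the assignment `z`: in the first term of the
list which is satisfied by `z` choose a nonempty set `B` of literals with variables outside `A`,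
add the variables of `B` to `A`, change `z` on a subset `D` of `B`, and go on with the rest of
the list, until `u` variables have been chosen. -/
noncomputable def cw (G : Finset V → ℝ) : DL V → (V → Bool) → ℕ → Finset V → ℝ
  | _, _, 0, A => G A
  | [], _, _ + 1, _ => 0
  | e :: f, z, u + 1, A => if Sat e.1 z then
      ∑ B ∈ e.1.powerset, ∑ D ∈ B.powerset,
        (if B.Nonempty ∧ B.card ≤ u + 1 ∧ Disjoint (vr B) A then
          cw G f (flp D z) (u + 1 - B.card) (A ∪ vr B) else 0)
    else cw G f z (u + 1) A

/-- The random assignment `Y` is almost uniform on all small sets of variables in `S`: every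
consistent term `T` over `S` is satisfied with probability `2 ^ (-T.card)`, up to `ε`. -/
def AI {Ω : Type} [Fintype Ω] (S : Finset V) (ε : ℝ) (Y : Ω → V → Bool) : Prop :=
  ∀ T : Tm V, Con T → (∀ p ∈ T, p.1 ∈ S) → |pr (fun w => Sat T (Y w)) - (1 / 2) ^ T.card| ≤ ε

/-! ### The choice of the variables and of their values, from strings of bits -/

/-- The number with the `b` binary digits `r (j b), ..., r (j b + b - 1)`. -/
def nb (b : ℕ) (r : ℕ → Bool) (j : ℕ) : ℕ :=
  ∑ i ∈ Finset.range b, if r (j * b + i) then 2 ^ i else 0

/-- The position which is chosen in the block number `j` (of length `2 ^ b`). -/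
def pk (b : ℕ) (r : ℕ → Bool) (j : ℕ) : ℕ := j * 2 ^ b + nb b r j

/-- The chosen literals: the variables of the list `al` at the positions `pk b r j`,
`j < q = al.length / 2 ^ b`, with the values `y j`. -/
def ex (al : List ℕ) (b : ℕ) (r y : List Bool) : List (ℕ × Bool) :=
  (List.range (al.length / 2 ^ b)).map fun j =>
    (al.getD (pk b (fun i => r.getD i false) j) 0, y.getD j false)

/-- The assignment `x`, overwritten by the list of literals `s`. -/
def ovr (s : List (ℕ × Bool)) {n : ℕ} (x : Fin n → Bool) : Fin n → Bool := fun v =>
  if ((v : ℕ), true) ∈ s then true else if ((v : ℕ), false) ∈ s then false else x v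

/-- A bit string from `F_2`-vectors, as a function on all numbers. -/
def bt {m : ℕ} (z : Fin m → ZMod 2) (i : ℕ) : Bool := if h : i < m then z2b (z ⟨i, h⟩) else false

end Pool.Agent.Helper65.CS
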