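import Pool.Agent.Helper65.CS.Goals
import Pool.Agent.Helper65.CS.Alg
import Pool.Agent.Helper78.DT.Goals2

/-!
# Search for satisfying assignments: the statements about the algorithm, with proofs in words
-/

namespace Pool.Agent.Helper65.CS

open Pool.Agent.Helper81.CC Pool.Agent.Helper78.DT Pool.Agent.Helper51.ZP
open scoped Classical

/-- **RST.** Restriction of decision lists.

Proof. (1) Sublists of nodup lists, etc. (2) Induction on `F`. As the names in `s` are different, `s`
does not contain both `(v, true)` and `(v, false)`; so for `p ∈ s` (with `p.1 < n`) the value of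
`ovr s x` at `p.1` is `p.2`. If some literal `p` of the term has `(p.1, !p.2) ∈ s`, then `ovr s x`
does not satisfy the term, and the entry is removed by `rst`. Otherwise the literals in `s` are
satisfied, and for the literals `p ∉ s` also `(p.1, !p.2) ∉ s`, so the values of `x` and `ovr s x`
agree at `p.1` (both values are `false` if `p.1 ≥ n`). -/
def RstStmt : Prop :=
  (∀ (n W : ℕ) (s : List (ℕ × Bool)) (F : DList), NF n W F →
    NF n W (rst s F) ∧ (rst s F).length ≤ F.length) ∧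
  ∀ (n : ℕ) (s : List (ℕ × Bool)) (F : DList) (x : Fin n → Bool), (s.map Prod.fst).Nodup →
    (∀ p ∈ s, p.1 < n) → DList.val x (rst s F) = DList.val (ovr s x) F

/-- **NRM.** Normalization.

Proof. A literal `(v, false)` with `v ≥ n` is always satisfied, a literal `(v, true)` with `v ≥ n`
never, and a term with two literals `(v, true)`, `(v, false)` never; so for each `x` the cleaned
term `cln n e.1` is satisfied iff `e.1` is, and the terms removed by the first test are never
satisfied. (1) clear (`List.nodup_dedup`, `List.take_subset`, ...). (2) Induction on `F`: a term with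
label `false` is replaced by a weaker condition with label `false`, a term with label `true` is
dropped or kept: if the value of the new list is `true`, then so is the value of the old one. (3)
Call the entry `e` long if it passes the first test and `W < (cln n e.1).length`. If `x` does not
satisfy `(cln n e.1).take W` for any long entry `e`, then the values of `F` and `nrm n W F` at `x`
agree (induction). `(cln n e.1).take W` has `W` literals with different variables `< n`, so the
fraction of the `x` which satisfy it is `2 ^ (-W)`. -/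
def NrmStmt : Prop := ∀ (n W : ℕ) (F : DList), NF n W (nrm n W F) ∧
  (nrm n W F).length ≤ F.length ∧
  (∀ x : Fin n → Bool, DList.val x (nrm n W F) = true → DList.val x F = true) ∧
  frac n F ≤ frac n (nrm n W F) + (F.length : ℝ) / 2 ^ W

/-- **TDL.** Translation. Proof. The literals of a normalized term have names `< n`; the set of the
corresponding pairs in `Fin n × Bool` has at most as many elements as the list, and
`Sat` is the condition of `DList.val`. Induction on `F`; `pr_eq_card` for the last claim. -/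
def TdlStmt : Prop := ∀ (n W : ℕ) (F : DList), NF n W F →
  Wid W (tdl n F) ∧ CL (tdl n F) ∧ (tdl n F).length = F.length ∧
  (∀ x : Fin n → Bool, DList.val x F = ev (tdl n F) x) ∧
  frac n F = pr fun x : Fin n → Bool => ev (tdl n F) x = true

/-- **CNT.** Counting with a common unit, from the counting functions of
`Pool.Agent.Helper78.DT.LstStmt`.

Proof. Let `h` be the function of `CountsLists (k + 1)`; put `D = lg (dsize (n + N, F))` and
`g (n, F, N) = (2 (lg N)^k h(n + N, F) + D^(k+1)) / (2 D^(k+1))`. It is in `PolyTime`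
(`Pool.Agent.Helper78.LM.PT_of_comp` for `h`; `lg` by `PtlStmt`; `dsize` is a fold or
`sum` of a mapped list). As `F` is normalized, it has only variables `< n`, so
`frac (n + N) F = frac n F`. `dsize (n + N, F) ≥ N`, so `D ≥ lg N ≥ 2`, and
`|g/(lg N)^k - h/D^(k+1)| ≤ 1/(2 (lg N)^k)` (the integral part of `y + 1/2` is within `1/2` of `y`),
`|h/D^(k+1) - frac| ≤ 1/D^(k+1) ≤ 1/(2 (lg N)^k)`. -/
def CntStmt : Prop := (∀ c, CountsLists c) → ∀ k : ℕ, ∃ g : ℕ × DList × ℕ → ℕ,
  PolyTime g ∧ Cnt k g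

/-- **CND.** The candidates.

Proof. `al n s` has no repetitions and only elements `< n`. First case of `cands`: for `j < q`,
`q = A.length / 2 ^ b`, the positions `pk b r j ∈ [j 2^b, (j+1) 2^b)` are different and
`< A.length`, so the names are different elements of `A = al n s`; `e.length = q`, and
`A.length ≤ q 2^(b+1)` because `q ≥ 1`. Second case: `e.length = 1`, `A.length < 2^b`. (3): take the
head of the nonempty list `al n s`. -/
def CndStmt : Prop := ∀ (b M n : ℕ) (s : List (ℕ × Bool)),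
  (al n s).Nodup ∧ (∀ v ∈ al n s, v < n) ∧
  (∀ e ∈ cands b M n s, (e.map Prod.fst).Nodup ∧ (∀ p ∈ e, p.1 ∈ al n s) ∧ 1 ≤ e.length ∧
    (al n s).length ≤ e.length * 2 ^ (b + 1)) ∧
  ((al n s).length < 2 ^ b → al n s ≠ [] →
    ∃ v ∈ al n s, [(v, false)] ∈ cands b M n s ∧ [(v, true)] ∈ cands b M n s)

/-- **ALN.** The number of the free variables. Proof. `al n (e ++ s)` is the list of the `v ∈ al n s`
which do not occur in `e`; the names in `e` are `e.length` different elements of `al n s`. -/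
def AlnStmt : Prop := ∀ (n : ℕ) (e s : List (ℕ × Bool)), (e.map Prod.fst).Nodup →
  (∀ p ∈ e, p.1 ∈ al n s) → (al n (e ++ s)).length + e.length = (al n s).length

/-- **INV.** The invariant. (May assume `RstStmt`.)

Proof. The names in `e` are not in `t.1` (definition of `al`), so the names in `e ++ t.1` are
different, and `ovr (e ++ t.1) x = ovr t.1 (ovr e x)`: for a variable in `t.1` both sides are the
value of `t.1`, for the others both are the value of `ovr e x`. With RST,
`val x (rst e t.2) = val (ovr e x) t.2 = val (ovr t.1 (ovr e x)) F`. -/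
def InvStmt : Prop := ∀ (n W : ℕ) (F : DList) (t : List (ℕ × Bool) × DList)
  (e : List (ℕ × Bool)), Inv n W F t → (e.map Prod.fst).Nodup → (∀ p ∈ e, p.1 ∈ al n t.1) →
  Inv n W F (e ++ t.1, rst e t.2)

/-- The loss of one step. -/
noncomputable def loss (W b u0 c1 M n l : ℕ) : ℝ :=
  (l : ℝ) * ((W : ℝ) * (2 / 2 ^ b)) ^ u0 +
    ∑ u ∈ Finset.Ico c1 (c1 + u0), (8 * (W : ℝ) * (2 / 2 ^ b)) ^ u + 2 ^ c1 * ((n : ℝ) / M)

/-- **PRG.** Some candidate is good. (May assume `StpStmt`, `RstStmt`, `TdlStmt`, `CndStmt`.)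

Proof. Let `f = tdl n G`. For a candidate `e`, by RST and TDL,
`frac n (rst e G) = pr (ev f (ovr e x) = true)`. If `2 ^ b ≤ (al n s).length`: STP for `al n s`
(`(al n s).length ≤ n`, and `loss` is increasing in `n`). Otherwise the two candidates
`[(v, false)]`, `[(v, true)]` of CND: `frac n G` is the average of the two values
`pr (ev f (ovr [(v, b)] x) = true)` (the bijection `x ↦ (x v, x)` with changed value, or: `x` and
`ovr [(v, x v)] x` agree, and `ovr [(v, b)] x` does not depend on `x v`), so one of them is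
`≥ frac n G`. -/
def PrgStmt : Prop := ∀ (n W b u0 c1 M : ℕ) (s : List (ℕ × Bool)) (G : DList), NF n W G →
  2 ≤ M → 1 ≤ c1 → 1 ≤ b → (n : ℝ) / M ≤ (1 / 2 ^ b) ^ (c1 + u0) → al n s ≠ [] →
  ∃ e ∈ cands b M n s, frac n G ≤ frac n (rst e G) + loss W b u0 c1 M n G.length

/-- **STE.** One step of the algorithm. (May assume `PrgStmt`, `InvStmt`, `CndStmt`, `AlnStmt`,
`RstStmt`.)

Proof. Let `U = (lg N)^k`, `t = (s, G)`. If `al n s = []`, there are no candidates (CND: a candidate
has length `≥ 1` and names in `al n s`), `step` does nothing and everything is clear. Otherwise PRG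
gives a candidate `e` with `frac n G ≤ frac n (rst e G) + loss ≤ frac n (rst e G) + 1/U` (`loss` is
increasing in the last two arguments), so by `Cnt` `g(n, G, N) ≤ U frac n G + 1 ≤
U frac n (rst e G) + 2 ≤ g(n, rst e G, N) + 3`, so `find?` finds some candidate `e'`, and
`U frac n G ≤ g(n, G, N) + 1 ≤ g(n, rst e' G, N) + 4 ≤ U frac n (rst e' G) + 5`. INV, ALN and CND for
`e'`. -/
def SteStmt : Prop := ∀ (k : ℕ) (g : ℕ × DList × ℕ → ℕ), Cnt k g →
  ∀ (n N W b u0 c1 M : ℕ) (F : DList) (t : List (ℕ × Bool) × DList), Inv n W F t →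
  2 ≤ M → 1 ≤ c1 → 1 ≤ b → (N : ℝ) / M ≤ (1 / 2 ^ b) ^ (c1 + u0) → n ≤ N → t.2.length ≤ N →
  loss W b u0 c1 M N N ≤ 1 / (lg N : ℝ) ^ k →
  Inv n W F (step g b M n N t) ∧ (step g b M n N t).2.length ≤ t.2.length ∧
  frac n t.2 ≤ frac n (step g b M n N t).2 + 5 / (lg N : ℝ) ^ k ∧
  (al n (step g b M n N t).1).length * 2 ^ (b + 1) + (al n t.1).length ≤
    (al n t.1).length * 2 ^ (b + 1)

/-- **ITR.** Proof. `a (s + 1) ≤ a s (1 - 1/Q)`, so `a (Q L) ≤ a 0 (1 - 1/Q)^(Q L)`, and
`(1 - 1/Q)^Q ≤ 1/2` for `Q ≥ 2` (Bernoulli: `(1 + 1/(Q-1))^Q ≥ 2`), `= 0` for `Q = 1`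
(`L ≥ 1`). -/
def ItrStmt : Prop := ∀ (a : ℕ → ℕ) (Q L : ℕ), 1 ≤ Q → 1 ≤ L →
  (∀ s, a (s + 1) * Q + a s ≤ a s * Q) → a 0 < 2 ^ L → a (Q * L) = 0

/-- The exponent `u0`. -/
def uu (L : ℕ) : ℕ := 4 * L / Nat.log 2 L + 1

/-- **PR1.** Proof. `L = log₂ N + 2`, so (`N ≥ 1` for `L ≥ 3`) `2^L = 4 * 2^(log₂ N) ≤ 4 N` and
`N < 2^L`; hence `N / M ≤ 2^L / 2^(19 L) = 2^(-18 L)`. With `ℓ = log₂ L`, `b = 2 (ℓ + 1)`,
`u0 = ⌊4 L/ℓ⌋ + 1`: `b (c + 5 + u0) ≤ 2 (ℓ+1)(c+6) + 8 L (ℓ+1)/ℓ ≤ 2 (ℓ+1)(c+6) + 9 L ≤ 18 L` for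
`ℓ ≥ 8` and large `L`. -/
def Pr1Stmt : Prop := ∀ c : ℕ, ∃ L0 : ℕ, ∀ N : ℕ, L0 ≤ lg N →
  2 ≤ MM N ∧ (N : ℝ) / MM N ≤ (1 / 2 ^ bb (lg N)) ^ (c + 5 + uu (lg N))

/-- **PR2.** Proof. With `ℓ = log₂ L`: `2^b = 4^(ℓ+1) > L^2` (`2^(ℓ+1) > L`), so
`x = W (2/2^b) ≤ 2 (c+3) L / L^2 = 2 (c+3)/L`. First summand: for large `L`,
`2 (c+3) ≤ 2^(ℓ/2)`-like bounds give `x^2 ≤ 2^(-ℓ)` (from `(2(c+3))^2 ≤ L ` and `L ≥ 2^ℓ`:
`x^2 ≤ 1/L ≤ 2^(-ℓ)`), so `x^(u0) ` has square `≤ 2^(-ℓ u0) ≤ 2^(-4 L)` as `ℓ u0 ≥ 4 L`; so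
`N x^u0 ≤ 2^L 2^(-2 L) = 2^(-L) ≤ 1/(4 L^(c+4))` for large `L`. Second summand: `8 x ≤ 16 (c+3)/L ≤
1/2` for large `L`, so the sum is `≤ 2 (16 (c+3)/L)^(c+5) ≤ 1/(4 L^(c+4))` for
`L ≥ 8 (16 (c+3))^(c+5)`. Third summand: `N / M ≤ 2^(-18 L)` as in PR1,
`2^(c+5) 2^(-18 L) ≤ 1/(4 L^(c+4))`. -/
def Pr2Stmt : Prop := ∀ c : ℕ, ∃ L0 : ℕ, ∀ N : ℕ, L0 ≤ lg N →
  loss (Ww c (lg N)) (bb (lg N)) (uu (lg N)) (c + 5) (MM N) N N ≤ 1 / (lg N : ℝ) ^ (c + 4)

/-- **PR3.** Proof. `TT L = 2 * 2^b L`, `2^b = 4 * 4^ℓ ≤ 4 L^2`, so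
`TT L * 5 / L^(c+4) ≤ 40 L^3 / L^(c+4) = 40 / L^(c+1) ≤ 1/(4 L^c)` for `L ≥ 160`. `N < 2^L`,
`W = (c+3) L`, `N / 2^W ≤ 2^(-(c+2) L) ≤ 1/(4 L^c)`, since `L^c ≤ 2^(c L)`, `4 ≤ 2^(2 L)`. -/
def Pr3Stmt : Prop := ∀ c : ℕ, ∃ L0 : ℕ, ∀ N : ℕ, L0 ≤ lg N →
  (TT (lg N) : ℝ) * (5 / (lg N : ℝ) ^ (c + 4)) ≤ 1 / (4 * (lg N : ℝ) ^ c) ∧
  (N : ℝ) / 2 ^ Ww c (lg N) ≤ 1 / (4 * (lg N : ℝ) ^ c)

/-- **LOP.** The loop. (May assume `SteStmt`, `NrmStmt`, `ItrStmt`, `Pr1Stmt`, `Pr2Stmt`,
`Pr3Stmt`.)

Proof. `L0` = the maximum of the three bounds (and `1`). Let `N = dsize (n, F)`, `n ≤ N`,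
`F.length ≤ N`, `W = Ww c (lg N)`, `F' = nrm n W F`. The state `([], F')` satisfies
`Inv n W F'` (`ovr [] x = x`), and `F'.length ≤ N`. By STE (`k = c + 4`, `c1 = c + 5`,
`u0 = uu (lg N)`, `b = bb (lg N) ≥ 1`) and induction, for all `j` the state after `j` steps satisfies
`Inv`, has length `≤ N`, `frac n F' ≤ frac n (state).2 + j * 5/(lg N)^(c+4)`, and the numbers
`a j = (al n (state j).1).length` satisfy the hypothesis of ITR with `Q = 2^(b+1)`,
`a 0 = n ≤ N < 2 ^ lg N`; `TT L = Q L`. With PR3. -/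
def LopStmt : Prop := ∀ (c : ℕ) (g : ℕ × DList × ℕ → ℕ), Cnt (c + 4) g → ∃ L0 : ℕ,
  ∀ (n : ℕ) (F : DList), L0 ≤ lg (dsize (n, F)) →
    Inv n (Ww c (lg (dsize (n, F)))) (nrm n (Ww c (lg (dsize (n, F)))) F)
      (st g c n F (dsize (n, F)) (TT (lg (dsize (n, F))))) ∧
    al n (st g c n F (dsize (n, F)) (TT (lg (dsize (n, F))))).1 = [] ∧
    frac n (nrm n (Ww c (lg (dsize (n, F)))) F) ≤
      frac n (st g c n F (dsize (n, F)) (TT (lg (dsize (n, F))))).2 +
        1 / (4 * (lg (dsize (n, F)) : ℝ) ^ c) ∧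
    (dsize (n, F) : ℝ) / 2 ^ Ww c (lg (dsize (n, F))) ≤ 1 / (4 * (lg (dsize (n, F)) : ℝ) ^ c)

/-- **FIN.** The end of the search.

Proof. As `al n t.1 = []`, each `v < n` occurs in `t.1`, with exactly one value (the names are
different), so `ovr t.1 x` does not depend on `x`: it is `v ↦ [(v, true) ∈ t.1]`. As
`0 < frac n t.2` there is `x` with `DList.val x t.2 = true`, so the value of `F` at `ovr t.1 x` is
`true`. -/
def FinStmt : Prop := ∀ (n W : ℕ) (F : DList) (t : List (ℕ × Bool) × DList), Inv n W F t →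
  al n t.1 = [] → 0 < frac n t.2 →
  ∃ r : Fin n → Bool, DList.val r F = true ∧ asg n t.1 = List.ofFn r

/-- **PTX.** The parts of a step in polynomial time. (May assume
`Pool.Agent.Helper78.DT.PtlStmt`.)

Proof. `nb b r j` by Horner's rule: `acc ↦ 2 acc + r (j b + b - 1 - i)`, `b` steps; the values are
`< 2 ^ b ≤ B`. The rest is in the calculus (`map`, `filter`, `contains`, `all`, `getD`, `take`,
`div`, `find?`); `dedup` by a fold if it is not there: `x :: l ↦ if x ∈ dedup l then dedup l else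
x :: dedup l` (`foldr`, or the reversed list), with `toData`-size bound `sz (dedup l) ≤ sz l`. -/
def PtxStmt : Prop := ∀ (α : Type) [ToData α],
  (∀ (B b : α → ℕ) (A : α → List ℕ) (r y : α → List Bool), PolyTime B → PolyTime b →
    PolyTime A → PolyTime r → PolyTime y → (∀ a, 2 ^ b a ≤ B a) →
    PolyTime fun a => ex (A a) (b a) (r a) (y a)) ∧
  (∀ (n : α → ℕ) (s : α → List (ℕ × Bool)), PolyTime n → PolyTime s →
    (PolyTime fun a => al (n a) (s a)) ∧ PolyTime fun a => asg (n a) (s a)) ∧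
  (∀ (n W : α → ℕ) (s : α → List (ℕ × Bool)) (F : α → DList), PolyTime n → PolyTime W →
    PolyTime s → PolyTime F →
    (PolyTime fun a => rst (s a) (F a)) ∧ PolyTime fun a => nrm (n a) (W a) (F a)) ∧
  (∀ (r : α → List Bool) (F : α → DList), PolyTime r → PolyTime F →
    PolyTime fun a => vl (r a) (F a))

/-- **PTC.** The step in polynomial time. (May assume `PtxStmt`,
`Pool.Agent.Helper78.DT.PtlStmt`.)

Proof. `gens` by `Pool.Agent.Helper51.ZP.PT_gens`; `cands` by `ite`, `flatMap`, `map` and PTX;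
`step`: `find?` and `option_elim`. -/
def PtcStmt : Prop := ∀ (α : Type) [ToData α] (g : ℕ × DList × ℕ → ℕ) (B b M n N : α → ℕ)
  (t : α → List (ℕ × Bool) × DList), PolyTime g → PolyTime B → PolyTime b → PolyTime M →
  PolyTime n → PolyTime N → PolyTime t → (∀ a, 2 ^ b a ≤ B a) →
  PolyTime fun a => step g (b a) (M a) (n a) (N a) (t a)

/-- **PTR.** The search in polynomial time. (May assume `PtxStmt`, `PtcStmt`, `CndStmt`,
`Pool.Agent.Helper78.DT.PtlStmt`.)

Proof. `b = bb (lg N)`, `2 ^ bb L ≤ 4 L^2` (`2 ^ Nat.log 2 L ≤ L`), so `B = 4 (lg N)^2`, and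
`2 ^ bb L`, `TT L`, `MM N`, `Ww c L` are in `PolyTime` (`lg` and `2 ^ m` by PtlStmt, `dsize` is a sum
over a list). The iteration: `PolyTime.iterate_bd`. The size of the second component of the state does
not increase (`rst` removes entries and literals). The first component grows in each step by a
candidate `e`: by CND `e` has at most `n` elements, with names `< n`, so its size is at most
polynomial, `≤ (n + 1) (2 n + 20)`-like; after `k ≤ TT` steps the size is at most `k` times this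
plus the initial size. -/
def PtrStmt : Prop := ∀ (g : ℕ × DList × ℕ → ℕ) (c : ℕ), PolyTime g → PolyTime (srch g c)

/-- **BRF.** Brute force for small inputs. (May assume `PtxStmt`.)

Proof. `h (n, F)` is the first list `r` in the (constant) list of all bit strings of length `≤ M`
with `r.length = n` and `vl r F = true` (`find?`, `[]` if there is none). `n ≤ dsize (n, F) ≤ M`.
`vl (List.ofFn r) F = DList.val r F` by induction on `F` (`List.getD` of `List.ofFn`). The constant
list: any list which contains all bit strings of length `≤ M`, for example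
`(List.range (M + 1)).flatMap fun k => List.replicateM ...`, or the list of all functions; it exists
because the set of these strings is finite (`List.finite_length_le`, `Set.Finite.toFinset`,
`Finset.toList`). -/
def BrfStmt : Prop := ∀ M : ℕ, ∃ h : ℕ × DList → List Bool, PolyTime h ∧ ∀ n F,
  dsize (n, F) ≤ M → (∃ r : Fin n → Bool, DList.val r F = true) →
  ∃ r : Fin n → Bool, DList.val r F = true ∧ h (n, F) = List.ofFn r

/-- **FLI.** Search for decision lists. (May assume `CntStmt`, `LopStmt`, `NrmStmt`, `FinStmt`,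
`PtrStmt`, `BrfStmt`, `Pool.Agent.Helper78.DT.PtlStmt`.)

Proof. `g` from CNT for `k = c + 4`, `L0` from LOP, `h` from BRF for `M = 2 ^ L0`. Let
`f z = srch g c z` if `L0 ≤ lg (dsize z)`, otherwise `h z` (`dsize z < 2 ^ lg (dsize z)`). In the
first case let `L = lg N`, `N = dsize (n, F)`; the hypothesis is `1/L^c ≤ frac n F`; by NRM, LOP
(`F.length ≤ N`), `frac n t.2 ≥ 1/L^c - 1/(4 L^c) - 1/(4 L^c) > 0` for the final state `t`; by FIN,
`asg n t.1 = List.ofFn r` with `val r (nrm ...) = true`, so `val r F = true` by NRM. In the second case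
there is a solution, because `2 ^ n > 0`. `PolyTime.itep`, and `PolyTime` implies
`PolyTimeComputable` (`PolyTime.computable`). -/
def FliStmt : Prop := (∀ c, CountsLists c) → ∀ c, FindsLists c

/-- **CNF.** Search for CNF formulas.

Proof. For a CNF formula `F` let `F' = (F.map fun C => (C.map fun p => (p.1, !p.2), false)) ++
[([], true)]`. A clause is violated iff all its negated literals are true; so
`DList.val r F' = true` iff `Satisfies r F` (induction on `F`). `dsize (n, F') = csize (n, F) + 1`, so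
the hypothesis for `F` implies the one for `F'`. `F ↦ F'` is in `PolyTime`
(`Pool.Agent.Helper78.LM.PT_of_comp`, `PolyTime.computable`). -/
def CnfStmt : Prop := (∀ c, FindsLists c) → ∀ c, FindsCNF c

end Pool.Agent.Helper65.CS
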