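import Pool.Agent.Helper78.DT.Final
import Pool.Agent.Helper65.CS.Goals2
import Pool.Agent.Helper65.CS.Goals3
import Pool.Agent.Helper5.CS.COD
import Pool.Agent.Helper94.CS.CWB
import Pool.Agent.Helper9.CS.CWA
import Pool.Agent.Helper56.CS.MIX
import Pool.Agent.Helper32.CS.SWI
import Pool.Agent.Helper49.CS.WID
import Pool.Agent.Helper40.CS.DSW
import Pool.Agent.Helper32.CS.FOL
import Pool.Agent.Helper83.CS.CYL
import Pool.Agent.Helper89.CS.GEN
import Pool.Agent.Helper33.CS.PSL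
import Pool.Agent.Helper27.CS.CHS
import Pool.Agent.Helper65.CS.ASG
import Pool.Agent.Helper3.CS.OVX
import Pool.Agent.Helper42.CS.STP
import Pool.Agent.Helper4.CS.RST
import Pool.Agent.Helper13.CS.NRM
import Pool.Agent.Helper31.CS.TDL
import Pool.Agent.Helper93.CS.CNT
import Pool.Agent.Helper51.CS.CND
import Pool.Agent.Helper61.CS.ALN
import Pool.Agent.Helper15.CS.INV
import Pool.Agent.Helper87.CS.PRG
import Pool.Agent.Helper34.CS.STE
import Pool.Agent.Helper8.CS.ITR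
import Pool.Agent.Helper16.CS.PR1
import Pool.Agent.Helper79.CS.PR2
import Pool.Agent.Helper89.CS.PR3
import Pool.Agent.Helper81.CS.LOP
import Pool.Agent.Helper61.CS.FIN
import Pool.Agent.Helper48.CS.PTX
import Pool.Agent.Helper37.CS.PTC
import Pool.Agent.Helper2.CS.PTR
import Pool.Agent.Helper67.CS.BRF
import Pool.Agent.Helper38.CS.FLI
import Pool.Agent.Helper46.CS.CNF
import Pool.Agent.Helper94.CS.MLV
import Pool.Agent.Helper89.CS.MLP
import Pool.Agent.Helper51.CS.MLF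

/-!
# Search for satisfying assignments: the assembly
-/

namespace Pool.Agent.Helper65.CS

open Pool.Agent.Helper78.DT

theorem dswS : DswStmt :=
  Pool.Agent.Helper40.CS.dsw
    (Pool.Agent.Helper32.CS.swi Pool.Agent.Helper5.CS.cod Pool.Agent.Helper56.CS.mix)
    Pool.Agent.Helper94.CS.cwb Pool.Agent.Helper9.CS.cwa Pool.Agent.Helper49.CS.wid

theorem stpS : StpStmt :=
  Pool.Agent.Helper42.CS.stp dswS Pool.Agent.Helper32.CS.fol Pool.Agent.Helper56.CS.mix
    Pool.Agent.Helper89.CS.gen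
    (Pool.Agent.Helper27.CS.chsStmt (Pool.Agent.Helper33.CS.psl Pool.Agent.Helper83.CS.cyl))
    (asgS Pool.Agent.Helper83.CS.cyl) Pool.Agent.Helper3.CS.ovx

theorem rstS : RstStmt := Pool.Agent.Helper4.CS.rst

theorem steS : SteStmt :=
  Pool.Agent.Helper34.CS.ste
    (Pool.Agent.Helper87.CS.prg stpS rstS Pool.Agent.Helper31.CS.tdl_stmt
      Pool.Agent.Helper51.CS.cnd)
    (Pool.Agent.Helper15.CS.inv rstS) Pool.Agent.Helper51.CS.cnd Pool.Agent.Helper61.CS.aln rstS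

theorem lopS : LopStmt :=
  Pool.Agent.Helper81.CS.lop steS Pool.Agent.Helper13.CS.nrm Pool.Agent.Helper8.CS.itr
    Pool.Agent.Helper16.CS.pr1 Pool.Agent.Helper79.CS.pr2 Pool.Agent.Helper89.CS.pr3

theorem ptxS : PtxStmt := Pool.Agent.Helper48.CS.ptx Pool.Agent.Helper3.DT.ptl

theorem ptrS : PtrStmt :=
  Pool.Agent.Helper2.CS.ptr ptxS (Pool.Agent.Helper37.CS.ptc ptxS Pool.Agent.Helper3.DT.ptl)
    Pool.Agent.Helper51.CS.cnd Pool.Agent.Helper3.DT.ptl

theorem findsLists : ∀ c, FindsLists c :=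
  Pool.Agent.Helper38.CS.fli Pool.Agent.Helper93.CS.cnt lopS Pool.Agent.Helper13.CS.nrm
    Pool.Agent.Helper61.CS.fin ptrS (Pool.Agent.Helper67.CS.brf ptxS) Pool.Agent.Helper3.DT.ptl
    (fun c => (Pool.Agent.Helper78.DT.main c).1)

theorem main (c : ℕ) : FindsCNF c ∧ FindsLists c ∧ FindsCoins c :=
  ⟨Pool.Agent.Helper46.CS.cnf findsLists c, findsLists c,
    Pool.Agent.Helper51.CS.mlf (Pool.Agent.Helper94.CS.mlv Pool.Agent.Helper56.DT.his)
      (Pool.Agent.Helper89.CS.mlp Pool.Agent.Helper56.DT.his) findsLists c⟩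

end Pool.Agent.Helper65.CS
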