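import Pool.Agent.Helper65.CS.Core

/-!
# Search for satisfying assignments: the statements of the analysis, with proofs in words

Each `...Stmt` is to be proved in its own file. Basic rules for `av`, `pr`: `Helper78/DT/Av.lean`.
The whole paper proof: `CS/paper.md`. Second part (algorithm, numbers): `CS/Goals2.lean`.
-/

namespace Pool.Agent.Helper65.CS

open Pool.Agent.Helper78.DT Pool.Agent.Helper51.ZP
open scoped Classical

/-- **COD.** A restriction under which the canonical tree is deep has a code: a short partial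
assignment `σ` on a set `A` of `u` free variables such that, for all assignments `z` which extend
`ρ` and agree with `σ` on `A`, the sum `cw` contains the summand `G (A0 ∪ A)`.

Proof. Induction on `f`, for all `ρ`, `c`, `A0`. `f = []`: `dep = 0 < 1 ≤ c`. Let `f = e :: f'`.
First case: `Fls ρ e.1`. Then `dep` is the depth of `f'`, and an assignment which extends `ρ` does
not satisfy `e.1`; the data for `f'` will do (`u ≥ c ≥ 1`, so the third or second clause of `cw`
applies). Second case: `e.1` is not falsified; let `U = fr ρ e.1`. The literals of `U` are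
consistent, so there is `σ₁` with `Sat U σ₁`, and every `z` which extends `ρ` and agrees with `σ₁` on
`vr U` satisfies `e.1` (the literals of `e.1` outside `U` are satisfied by `ρ`, as none is
falsified), and `(vr U).card = U.card`.
(2a) `c ≤ U.card`: take `u = U.card < u0`, `A = vr U`, `σ = σ₁`. The summand `B = U`, `D = ∅` of
`cw G f z u A0` is `G (A0 ∪ vr U)` (`flp ∅ z = z`, not needed: for remaining length `0` the value is
`G` of the set); all summands are nonnegative (`cw` is nonnegative if `G` is; induction).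
`Disjoint (vr U) A0`, because the variables of `U` are free and those of `A0` are not.
(2b) `U.card < c`. The supremum in `dep` is `≥ c - U.card ≥ 1`, so there is `x` with
`¬ Sat U x` and `c - U.card ≤ dep f' ρ'`, `ρ' = fx ρ U x`. The induction hypothesis for `f'`, `ρ'`,
`c - U.card` (free literals under `ρ'` are free under `ρ`) gives `u'`, `A'`, `σ'`. Take
`u = U.card + u'`, `A = vr U ∪ A'` (disjoint, as the variables in `A'` are free under `ρ'`), and `σ` equal
to `σ₁` on `vr U` and to `σ'` on `A'`. (`U` is not empty: otherwise `Sat U x`.) Let `z` extend `ρ` and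
agree with `σ` on `A`, and let `D = {p ∈ U | x p.1 ≠ p.2}`. Then `flp D z` agrees with `x` on `vr U`
and with `z` elsewhere, so it extends `ρ'` and agrees with `σ'` on `A'`. The summand `B = U`, `D` of
`cw G f z u A0` is `cw G f' (flp D z) u' (A0 ∪ vr U) ≥ G (A0 ∪ vr U ∪ A')`, since the variables in
`A0 ∪ vr U` are not free under `ρ'`. -/
def CodStmt : Prop := ∀ (V : Type) [Fintype V] [DecidableEq V] (f : DL V) (ρ : V → Option Bool)
  (c u0 : ℕ), CL f → 1 ≤ c → c ≤ dep f ρ → (∀ e ∈ f, (fr ρ e.1).card < u0) →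
  ∃ (u : ℕ) (A : Finset V) (σ : V → Bool), c ≤ u ∧ u < c + u0 ∧ A.card = u ∧
    (∀ v ∈ A, ρ v = none) ∧
    ∀ z : V → Bool, Ext ρ z → (∀ v ∈ A, z v = σ v) →
      ∀ G : Finset V → ℝ, (∀ A', 0 ≤ G A') → ∀ A0 : Finset V, (∀ v ∈ A0, ρ v ≠ none) →
        G (A0 ∪ A) ≤ cw G f z u A0

/-- **CWB.** The number of the codes.

Proof. Induction on `f` (for all `z`, `u`, `A`). `u = 0`: the hypothesis. `f = []`: clear. Let
`f = e :: f'`, length `u + 1`, `Sat e.1 z` (otherwise the induction hypothesis for `f'`). The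
literals of `B ⊆ e.1` have different variables (they are satisfied by `z`), so if `vr B` is disjoint
from `A`, then `(A ∪ vr B).card = A.card + B.card`, and the induction hypothesis gives
`cw ... ≤ (4 w)^(u+1-|B|) g`. There are `2^|B|` sets `D`. So the sum is at most
`∑_{j=1}^{u+1} (|e.1| choose j) 2^j (4 w)^(u+1-j) g ≤ ∑_j (2 w)^j (4 w)^(u+1-j) g =
(4 w)^(u+1) g ∑_j 2^(-j) ≤ (4 w)^(u+1) g` (sum over `B` by cardinality: `Finset.sum_powerset`,
`Finset.card_powersetCard`, `Nat.choose_le_pow`). -/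
def CwbStmt : Prop := ∀ (V : Type) [DecidableEq V] (G : Finset V → ℝ) (f : DL V) (w : ℕ)
  (z : V → Bool) (u : ℕ) (A : Finset V) (g : ℝ), Wid w f → 0 ≤ g →
  (∀ A' : Finset V, A'.card = A.card + u → G A' ≤ g) → cw G f z u A ≤ (4 * (w : ℝ)) ^ u * g

/-- **CWA.** `cw` is linear in `G`. Proof. Induction on `f` (`av_sum`; the average of `0` is `0`). -/
def CwaStmt : Prop := ∀ (V : Type) [DecidableEq V] (Ω : Type) [Fintype Ω]
  (G : Ω → Finset V → ℝ) (f : DL V) (z : V → Bool) (u : ℕ) (A : Finset V),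
  (av fun ω => cw (G ω) f z u A) = cw (fun A' => av fun ω => G ω A') f z u A

/-- **MIX.** Two independent uniform assignments, the first outside `S` and the second on `S`,
together are a uniform assignment.

Proof. `(z, y) ↦ (mx (rs S z) y, mx (rs S y) z)` is an involution of `(V → Bool) × (V → Bool)`
(`mx (rs S z) y v` is `y v` for `v ∈ S` and `z v` otherwise). So the double average is the average
over `(z, y)` of `F z` (`av_prod`, `av_equiv`, `av_const`). -/
def MixStmt : Prop := ∀ (V : Type) [Fintype V] [DecidableEq V] (S : Finset V)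
  (F : (V → Bool) → ℝ), (av fun z => av fun y => F (mx (rs S z) y)) = av F

/-- **SWI.** Switching for a fixed set `S` of free variables. (May assume `CodStmt`, `MixStmt`.)

Proof. Let `G A = [A ⊆ S]` and `Φ z = ∑_u 2^u cw G f z u ∅ ≥ 0`; the right side is `av Φ`, which by
MIX is `av_z av_y Φ (mx (rs S z) y)`. So it suffices that for every `z` with `c ≤ dep f (rs S z)`,
`1 ≤ av_y Φ (mx (rs S z) y)`. By COD for `ρ = rs S z` (`fr ρ T` is the set of the literals of `T` with
variable in `S`) there are `u ∈ [c, c + u0)`, `A ⊆ S` with `u` elements and `σ`; if `y` agrees with `σ`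
on `A`, then `mx ρ y` extends `ρ` and agrees with `σ` on `A`, so
`cw G f (mx ρ y) u ∅ ≥ G A = 1`. The probability that `y` agrees with `σ` on `A` is `2^(-u)`. So
`av_y Φ ≥ 2^u 2^(-u) = 1`. -/
def SwiStmt : Prop := ∀ (V : Type) [Fintype V] [DecidableEq V] (S : Finset V) (f : DL V)
  (c u0 : ℕ), CL f → 1 ≤ c → (∀ e ∈ f, (e.1.filter fun p => p.1 ∈ S).card < u0) →
  pr (fun z => c ≤ dep f (rs S z)) ≤
    ∑ u ∈ Finset.Ico c (c + u0),
      2 ^ u * av fun z => cw (fun A => if A ⊆ S then (1 : ℝ) else 0) f z u ∅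

/-- **WID.** For most sets `S` no term has many variables in `S`.

Proof. If `u0 ≤ (e.1.filter (·.1 ∈ S ω)).card` for a consistent term `e.1` with at most `w` literals,
then there is a set `B` of `u0` of these literals, with `u0` different variables, and
`vr B ⊆ S ω`. Union bound over the entries `e` and over the at most
`(w choose u0) ≤ w^u0` sets `B`. (`pr_exists_le`; for the list: induction, or a sum over
`Fin f.length`.) -/
def WidStmt : Prop := ∀ (V : Type) [DecidableEq V] (Ω : Type) [Fintype Ω] (S : Ω → Finset V)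
  (f : DL V) (w u0 : ℕ) (g : ℝ), 0 ≤ g → Wid w f → CL f →
  (∀ A : Finset V, A.card = u0 → pr (fun ω => A ⊆ S ω) ≤ g ^ u0) →
  pr (fun ω => ∃ e ∈ f, u0 ≤ (e.1.filter fun p => p.1 ∈ S ω).card) ≤
    f.length * ((w : ℝ) * g) ^ u0

/-- **DSW.** The derandomized switching lemma: the free set `S ω` is pseudorandom, the values
outside are uniform. (May assume `SwiStmt`, `CwbStmt`, `CwaStmt`, `WidStmt`.)

Proof. For each `ω` the probability over `z` is at most `1` if some term has `≥ u0` literals with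
variables in `S ω`, and otherwise at most `∑_u 2^u av_z (cw [· ⊆ S ω] f z u ∅)` (SWI); so in
both cases it is at most `[some term ...] + ∑_u 2^u av_z (...)` (`cw` is nonnegative). Average over
`ω`: WID for the first summand. For the second: exchange the averages, by CWA the average over `ω` is
`cw G f z u ∅` with `G A = pr (A ⊆ S ω)`, and by CWB, with the bound `g^u` for sets with `u`
elements, it is at most `(4 w)^u g^u`. -/
def DswStmt : Prop := ∀ (V : Type) [Fintype V] [DecidableEq V] (Ω : Type) [Fintype Ω]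
  [Nonempty Ω] (S : Ω → Finset V) (f : DL V) (w u0 c : ℕ) (g : ℝ), 0 ≤ g → Wid w f → CL f →
  1 ≤ c → (∀ A : Finset V, A.card < c + u0 → pr (fun ω => A ⊆ S ω) ≤ g ^ A.card) →
  (av fun ω => pr fun z => c ≤ dep f (rs (S ω) z)) ≤
    f.length * ((w : ℝ) * g) ^ u0 + ∑ u ∈ Finset.Ico c (c + u0), (8 * (w : ℝ) * g) ^ u

/-- **FOL.** Almost independent values fool decision lists whose canonical tree is not deep.

Proof. More generally, for every term `T` over `S` which is consistent and satisfied by `ρ`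
(`∀ p ∈ T, ρ p.1 = some p.2`), the probabilities of `Sat T y ∧ ev f (mx ρ y) = true` for `y = Y ω`
and for uniform `y` differ by at most `2 ^ dep f ρ * ε`; here all free variables of `ρ` are in `S`.
Induction on `f`. `f = []`: both are `0`. `f = e :: f'`: if `Fls ρ e.1`, then `mx ρ y` never
satisfies `e.1`, so `ev (e :: f') = ev f'` there, and `dep` is the same. Otherwise let
`U = fr ρ e.1`, consistent, with `U.card` different variables, and for `D ⊆ U` let `U_D` be `U` with
the bits of the literals in `D` negated. For each `y` exactly one `D ⊆ U` has `Sat U_D y`. So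
the event splits into the events `Sat (T ∪ U_D) y ∧ ...`, `D ⊆ U` (the variables of `U_D` are free,
those of `T` are not). For `D = ∅`: `mx ρ y` satisfies `e.1`, so the value is `e.2`: the event is
`Sat (T ∪ U)` or empty, error `≤ ε ≤ 2 ^ (dep - U.card) ε`. For `D ≠ ∅`: `mx ρ y` does not satisfy
`e.1`, the value is `ev f' (mx ρ y)`, and `mx ρ y = mx ρ_D y` for `ρ_D = fx ρ U x_D`, where `x_D`
satisfies `U_D` (so `¬ Sat U x_D`); by induction the error is at most
`2 ^ dep f' ρ_D ε ≤ 2 ^ (dep - U.card) ε`. There are `2 ^ U.card` sets `D`. -/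
def FolStmt : Prop := ∀ (V : Type) [Fintype V] [DecidableEq V] (Ω : Type) [Fintype Ω]
  [Nonempty Ω] (S : Finset V) (ε : ℝ) (Y : Ω → V → Bool) (f : DL V) (ρ : V → Option Bool),
  0 ≤ ε → CL f → (∀ v, ρ v = none → v ∈ S) → AI S ε Y →
  |pr (fun ω => ev f (mx ρ (Y ω)) = true) - pr (fun y => ev f (mx ρ y) = true)| ≤
    2 ^ dep f ρ * ε

/-- **CYL.** Small bias implies almost independence.

Proof. The indicator of the event is
`∏_{i ∈ I} (1 + sg (Z i + c i)) / 2 = 2^(-|I|) ∑_{J ⊆ I} sg (∑_{i ∈ J} (Z i + c i))` (with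
`c i` read as an element of `ZMod 2`; `sg_add`). The summand `J = ∅` is `1`. For `J ≠ ∅` the average
has absolute value `|Ex (sg (1_J ⬝ᵥ Z))| ≤ ε` (`Bias`; `Ex` and `av` are the same). -/
def CylStmt : Prop := ∀ (m : ℕ) (Ω : Type) [Fintype Ω] [Nonempty Ω] (ε : ℝ)
  (Z : Ω → Fin m → ZMod 2), 0 ≤ ε → Bias ε Z → ∀ (I : Finset (Fin m)) (c : Fin m → Bool),
  |pr (fun ω => ∀ i ∈ I, z2b (Z ω i) = c i) - (1 / 2) ^ I.card| ≤ ε

/-- **GEN.** The list `gens N m` contains the outputs of a small-bias generator.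

Proof. As in `Pool.Agent.Helper51.ZP.exists_field`: let `k` be the number of `vecs_spec N`,
`N ≤ 2 ^ k`, `0 < k`, `F = GaloisField 2 k` (`finrank = k`, `2 ^ k` elements),
`Ω = F × Module.Dual (ZMod 2) F`, `Z = powGen m`: `powGen_bias`, with `m / 2^k ≤ m / N`;
`powGen_rec` and `lfsr_eq` show that the outputs are in `gens N m`. -/
def GenStmt : Prop := ∀ N m : ℕ, 2 ≤ N → ∃ (Ω : Type) (_ : Fintype Ω) (_ : Nonempty Ω)
  (Z : Ω → Fin m → ZMod 2), Bias ((m : ℝ) / N) Z ∧
    ∀ ω, (List.ofFn fun i => z2b (Z ω i)) ∈ gens N m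

/-- **PSL.** The chosen positions. (May assume `CylStmt`.)

Proof. `nb b r j < 2 ^ b`, so `pk b r j = p` implies `j = p / 2 ^ b`, `nb b r j = p % 2 ^ b`, and this
means that `r (j b + i) = Nat.testBit (p % 2 ^ b) i` for all `i < b`. If some `p ∈ P` has
`p / 2 ^ b ≥ q`, or if two different elements of `P` have the same `p / 2 ^ b`, the event is empty.
Otherwise it is the event of CYL for the set `I` of the `b |P|` positions `(p / 2^b) b + i`,
`p ∈ P`, `i < b`, which are `< b q` and pairwise different; `(1/2)^(b |P|) = (1/2^b)^|P|`. -/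
def PslStmt : Prop := ∀ (b q : ℕ) (Ω : Type) [Fintype Ω] [Nonempty Ω] (ε : ℝ)
  (Z : Ω → Fin (b * q) → ZMod 2), 0 ≤ ε → Bias ε Z → ∀ P : Finset ℕ,
  pr (fun ω => ∀ p ∈ P, ∃ j < q, pk b (bt (Z ω)) j = p) ≤ (1 / 2 ^ b) ^ P.card + ε

/-- The set of the chosen variables. -/
noncomputable def chs (n : ℕ) (al : List ℕ) (b : ℕ) (r : ℕ → Bool) : Finset (Fin n) :=
  Finset.univ.filter fun v => ∃ j < al.length / 2 ^ b, al.getD (pk b r j) 0 = (v : ℕ)

/-- **CHS.** The chosen set is pseudorandom. (May assume `PslStmt`.)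

Proof. `pk b r j < 2 ^ b q ≤ al.length` for `j < q`. If some element of `A` is not in `al`, the
event is empty. Otherwise let `P` be the set of the positions (`List.idxOf`) of the elements of `A`
in `al`, `P.card = A.card`; as `al` has no repetitions, `v ∈ chs ...` iff
`∃ j < q, pk b r j = idxOf v al`. -/
def ChsStmt : Prop := ∀ (n b : ℕ) (al : List ℕ) (Ω : Type) [Fintype Ω] [Nonempty Ω] (ε : ℝ)
  (Z : Ω → Fin (b * (al.length / 2 ^ b)) → ZMod 2), 0 ≤ ε → Bias ε Z → al.Nodup →
  (∀ v ∈ al, v < n) → ∀ A : Finset (Fin n),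
  pr (fun ω => A ⊆ chs n al b (bt (Z ω))) ≤ (1 / 2 ^ b) ^ A.card + ε

/-- **ASG.** The chosen values are almost independent. (May assume `CylStmt`.)

Proof. `q = al.length / 2 ^ b`. For `v ∈ chs n al b r` there is exactly one `j_v < q` with
`al.getD (pk b r j_v) 0 = v`: `pk b r` is strictly increasing, with values `< al.length` for `j < q`,
and `al` has no repetitions. The literal `(v, c)` is in `ex al b r y` iff `y.getD j_v false = c`, so
`ovr (ex al b r y) x v = y.getD j_v false`. For a consistent term `T` over the chosen set the event is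
`∀ (v, c) ∈ T, z2b (Z ω j_v) = c`: CYL for `I = {j_v}`, `I.card = T.card`. -/
def AsgStmt : Prop := ∀ (n b : ℕ) (al : List ℕ) (r : List Bool) (Ω : Type) [Fintype Ω]
  [Nonempty Ω] (ε : ℝ) (Z : Ω → Fin (al.length / 2 ^ b) → ZMod 2), 0 ≤ ε → Bias ε Z →
  al.Nodup → (∀ v ∈ al, v < n) →
  AI (chs n al b fun i => r.getD i false) ε
    (fun ω => (ovr (ex al b r (List.ofFn fun i => z2b (Z ω i))) fun _ => false : Fin n → Bool))

/-- **OVX.** Overwriting as a mixture. Proof. For `v` in the chosen set one of the literals `(v, true)`,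
`(v, false)` is in the list `ex al b r y`, for `v` outside none of them is. -/
def OvxStmt : Prop := ∀ (n b : ℕ) (al : List ℕ) (r y : List Bool) (x : Fin n → Bool),
  ovr (ex al b r y) x =
    mx (rs (chs n al b fun i => r.getD i false) x) (ovr (ex al b r y) fun _ => false)

/-- **STP.** One step of the search: for a pseudorandom set of variables and pseudorandom values on
it, the probability does not drop much. (May assume `DswStmt`, `FolStmt`, `MixStmt`, `GenStmt`,
`ChsStmt`, `AsgStmt`, `OvxStmt`.)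

Proof. Let `q = al.length / 2 ^ b`, `m = b q ≤ al.length` (`b < 2 ^ b`), `ε = al.length / N`. Take
`Ω, Z` from GEN for `N, m`, and `Ω', Z'` for `N, q`; both are `ε`-biased. Let `r_ω`, `y_ω'` be the
lists in `gens`, `S_ω = chs n al b (bt (Z ω))` (`bt (Z ω) i = r_ω.getD i false`). For
`A.card < c1 + u0`, CHS gives `pr (A ⊆ S_ω) ≤ (1/2^b)^|A| + ε ≤ 2 (1/2^b)^|A| ≤ (2/2^b)^|A|` if
`A ≠ ∅` (for `A = ∅` the bound is `1`). So with `g = 2/2^b`, DSW: `av_ω pr_z (c1 ≤ dep f (rs S_ω z))`
is at most `f.length (w g)^u0 + ∑ (8 w g)^u`. Fix `ω`. By OVX and ASG, FOL for `ρ = rs S_ω x`: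
`av_ω' pr_x (ev f (ovr (ex al b r y) x)) = av_x pr_ω' (ev f (mx (rs S_ω x) Y_ω'))
≥ av_x (pr_y (ev f (mx (rs S_ω x) y)) - 2^c1 ε - [c1 ≤ dep f (rs S_ω x)])
= pr_x (ev f x) - 2^c1 ε - pr_x (c1 ≤ dep ...)` (MIX). Average over `ω`; some `(ω, ω')` is at
least as good as the average. -/
def StpStmt : Prop := ∀ (n : ℕ) (f : DL (Fin n)) (al : List ℕ) (b w u0 c1 N : ℕ), Wid w f →
  CL f → al.Nodup → (∀ v ∈ al, v < n) → 2 ≤ N → 1 ≤ c1 → 1 ≤ b →
  (al.length : ℝ) / N ≤ (1 / 2 ^ b) ^ (c1 + u0) →
  ∃ r ∈ gens N (b * (al.length / 2 ^ b)), ∃ y ∈ gens N (al.length / 2 ^ b),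
    pr (fun x => ev f x = true) ≤ pr (fun x => ev f (ovr (ex al b r y) x) = true) +
      (f.length * ((w : ℝ) * (2 / 2 ^ b)) ^ u0 +
        ∑ u ∈ Finset.Ico c1 (c1 + u0), (8 * (w : ℝ) * (2 / 2 ^ b)) ^ u +
        2 ^ c1 * ((al.length : ℝ) / N))

end Pool.Agent.Helper65.CS
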